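import Pool.Agent.QFree.Comb
import Pool.Agent.QFree.Pad

/-!
# The coding relation of the r.e. degrees has no quantifier-free definition

For every interpretation `I` of `ω` in the r.e. degrees the relation `R_I` of MP_dd8208_lc is not
defined by a quantifier-free formula. More generally it is not equal to any relation which outside
of a finite set of degrees is constant on the pairs `a < b`, constant on the pairs `a > b` and
symmetric on the pairs of incomparable degrees.
-/

set_option autoImplicit false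

open FirstOrder

namespace Pool.Agent.Results.MP_dd8208_lc.NoQuantifierFree

/-- Outside of the set `F` the relation `T` is constant on the pairs `a < b`, constant on the pairs
`a > b` and symmetric on the incomparable pairs. -/
def TameOutside {α : Type} [Preorder α] (F : Set α) (T : α → α → Prop) : Prop :=
  (∀ a b a' b', a ∉ F → b ∉ F → a' ∉ F → b' ∉ F → a < b → a' < b' → T a b → T a' b') ∧
  (∀ a b a' b', a ∉ F → b ∉ F → a' ∉ F → b' ∉ F → b < a → b' < a' → T a b → T a' b') ∧
  ∀ a b, a ∉ F → b ∉ F → ¬ a ≤ b → ¬ b ≤ a → T a b → T b a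

/-- `W`, `deg`, `R` and the structure are as in the statement `S15483`: the r.e. sets, their Turing
degrees and the order of the r.e. degrees. For every set `S` of r.e. degrees and every map `c` from
`S` onto `ℕ` (so for every interpretation of `ω`) the relation `a ∈ S`, `b` is the degree of
`W (c a)` is not tame outside of a finite set, and is not defined by a quantifier-free formula. -/
theorem result :
    ∀ W : ℕ → Set ℕ,
      (∀ n, W n = {x | (Nat.Partrec.Code.eval (Denumerable.ofNat Nat.Partrec.Code n) x).Dom}) →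
    ∀ deg : Set ℕ → TuringDegree,
      (∀ A : Set ℕ, deg A = toAntisymmetrization TuringReducible
        (fun x => Part.some (A.indicator (fun _ => (1 : ℕ)) x))) →
    ∀ R : Set TuringDegree, R = Set.range (fun n => deg (W n)) →
    ∀ S : Set ↥R, ∀ c : ↥R → ℕ, Set.SurjOn c S Set.univ →
      (∀ F : Set ↥R, F.Finite → ¬ TameOutside F (fun a b => a ∈ S ∧ deg (W (c a)) = b.1)) ∧
      ∀ [inst : FirstOrder.Language.order.Structure ↥R],
        (∀ (r : FirstOrder.Language.order.Relations 2) (v : Fin 2 → ↥R),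
          FirstOrder.Language.Structure.RelMap r v ↔ (v 0).1 ≤ (v 1).1) →
        ¬ ∃ φ : FirstOrder.Language.order.Formula (Fin 2), φ.IsQF ∧
          ∀ v : Fin 2 → ↥R, φ.Realize v ↔ (v 0 ∈ S ∧ deg (W (c (v 0))) = (v 1).1) := by
  intro W hW deg _ R hR S c hc
  have hfun : ∀ a b b' : ↥R, (a ∈ S ∧ deg (W (c a)) = b.1) → (a ∈ S ∧ deg (W (c a)) = b'.1) →
      b = b' := fun a b b' h h' => Subtype.ext (h.2.symm.trans h'.2)
  have hinf : ∀ b : ↥R, {a : ↥R | a ∈ S ∧ deg (W (c a)) = b.1}.Infinite := by
    intro b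
    obtain ⟨m, hm⟩ : ∃ m, deg (W m) = b.1 := hR.le b.2
    refine Set.Infinite.of_image c ?_
    refine (Pool.Agent.QFree.infinite_codes m).mono ?_
    intro n hn
    obtain ⟨a, ha, han⟩ := hc (Set.mem_univ n)
    refine ⟨a, ⟨ha, ?_⟩, han⟩
    have hn' : W n = W m := by
      rw [hW n, hW m, hn]
    rw [han, hn', hm]
  have : Nonempty ↥R := ⟨⟨deg (W 0), hR.ge ⟨0, rfl⟩⟩⟩
  have main : ∀ F : Set ↥R, F.Finite →
      ¬ TameOutside F (fun a b => a ∈ S ∧ deg (W (c a)) = b.1) := by
    intro F hF hT
    exact Pool.Agent.QFree.not_tame hF hfun hinf ⟨hT.1, hT.2.1, hT.2.2⟩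
  refine ⟨main, ?_⟩
  rintro inst hrel ⟨φ, hφ, hv⟩
  refine main ∅ Set.finite_empty ?_
  have hq : ∀ a b a' b' : ↥R, (a ≤ b ↔ a' ≤ b') → (b ≤ a ↔ b' ≤ a') →
      ((a ∈ S ∧ deg (W (c a)) = b.1) → (a' ∈ S ∧ deg (W (c a')) = b'.1)) := by
    intro a b a' b' h1 h2 h
    have e1 := hv ![a, b]
    have e2 := hv ![a', b']
    have e3 : φ.Realize ![a, b] ↔ φ.Realize ![a', b'] :=
      Pool.Agent.QFree.realize_iff (fun r v => hrel r v) hφ rfl default default
        (by simpa using h1) (by simpa using h2)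
    exact e2.1 (e3.1 (e1.2 h))
  refine ⟨fun a b a' b' _ _ _ _ h h' => hq a b a' b' ?_ ?_,
    fun a b a' b' _ _ _ _ h h' => hq a b a' b' ?_ ?_, fun a b _ _ h h' => hq a b b a ?_ ?_⟩
  · exact ⟨fun _ => h'.le, fun _ => h.le⟩
  · exact ⟨fun k => absurd k (not_le_of_gt h), fun k => absurd k (not_le_of_gt h')⟩
  · exact ⟨fun k => absurd k (not_le_of_gt h), fun k => absurd k (not_le_of_gt h')⟩
  · exact ⟨fun _ => h'.le, fun _ => h.le⟩
  · exact ⟨fun k => absurd k h, fun k => absurd k h'⟩
  · exact ⟨fun k => absurd k h', fun k => absurd k h⟩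

end Pool.Agent.Results.MP_dd8208_lc.NoQuantifierFree
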