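import Pool.Agent.QFree.Two
import Pool.Agent.QFree.Pad
import Pool.Agent.QFree.Top

/-!
# The coding relation of the r.e. degrees and one unary predicate

For every interpretation `I` of `ω` in the r.e. degrees `R` and every subset `U` of `R` the relation
`R_I` of MP_dd8208_lc is not a Boolean combination of `a ≤ b`, `b ≤ a`, `a ∈ U`, `b ∈ U`, i.e. it is
not quantifier-free definable in `(R, ≤, U)`.
-/

set_option autoImplicit false

namespace Pool.Agent.Results.MP_dd8208_lc.OneUnaryPredicate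

/-- `W`, `deg`, `R` are as in the statement `S15483`: the r.e. sets, their Turing degrees and the set
of the r.e. degrees. For every set `S` of r.e. degrees, every map `c` from `S` onto `ℕ` (so for
every interpretation of `ω`) and every set `U` of r.e. degrees the relation `a ∈ S`, `b` is the
degree of `W (c a)` is not a Boolean combination of `a ≤ b`, `b ≤ a`, `a ∈ U`, `b ∈ U`. -/
theorem result :
    ∀ W : ℕ → Set ℕ,
      (∀ n, W n = {x | (Nat.Partrec.Code.eval (Denumerable.ofNat Nat.Partrec.Code n) x).Dom}) →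
    ∀ deg : Set ℕ → TuringDegree,
      (∀ A : Set ℕ, deg A = toAntisymmetrization TuringReducible
        (fun x => Part.some (A.indicator (fun _ => (1 : ℕ)) x))) →
    ∀ R : Set TuringDegree, R = Set.range (fun n => deg (W n)) →
    ∀ S : Set ↥R, ∀ c : ↥R → ℕ, Set.SurjOn c S Set.univ →
    ∀ U : Set ↥R, ¬ ∃ Φ : Prop → Prop → Prop → Prop → Prop, ∀ a b : ↥R,
      (a ∈ S ∧ deg (W (c a)) = b.1) ↔ Φ (a ≤ b) (b ≤ a) (a ∈ U) (b ∈ U) := by
  intro W hW deg hdeg R hR S c hc U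
  rintro ⟨Φ, hΦ⟩
  obtain ⟨k, hk⟩ := Pool.Agent.QFree.exists_top hW hdeg
  have hfun : ∀ a b b' : ↥R, (a ∈ S ∧ deg (W (c a)) = b.1) → (a ∈ S ∧ deg (W (c a)) = b'.1) →
      b = b' := fun a b b' h h' => Subtype.ext (h.2.symm.trans h'.2)
  have hinf : ∀ b : ↥R, {a : ↥R | a ∈ S ∧ deg (W (c a)) = b.1}.Infinite := by
    intro b
    obtain ⟨m, hm⟩ : ∃ m, deg (W m) = b.1 := hR.le b.2
    refine Set.Infinite.of_image c ?_
    refine (Pool.Agent.QFree.infinite_codes m).mono ?_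
    intro n hn
    obtain ⟨a, ha, han⟩ := hc (Set.mem_univ n)
    refine ⟨a, ⟨ha, ?_⟩, han⟩
    have hn' : W n = W m := by
      rw [hW n, hW m, hn]
    rw [han, hn', hm]
  have ht : ∀ x : ↥R, x ≤ ⟨deg (W k), hR.ge ⟨k, rfl⟩⟩ := by
    intro x
    obtain ⟨m, hm⟩ : ∃ m, deg (W m) = x.1 := hR.le x.2
    change x.1 ≤ deg (W k)
    rw [← hm]
    exact hk m
  have key : ∀ a b a' b' : ↥R, (a ≤ b ↔ a' ≤ b') → (b ≤ a ↔ b' ≤ a') → (a ∈ U ↔ a' ∈ U) →
      (b ∈ U ↔ b' ∈ U) → (a ∈ S ∧ deg (W (c a)) = b.1) → (a' ∈ S ∧ deg (W (c a')) = b'.1) := by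
    intro a b a' b' h1 h2 h3 h4 h
    rw [hΦ] at h ⊢
    rwa [← propext h1, ← propext h2, ← propext h3, ← propext h4]
  have cls : ∀ {x y t : ↥R}, ((x ∈ U ↔ t ∈ U) ↔ (y ∈ U ↔ t ∈ U)) → (x ∈ U ↔ y ∈ U) := by
    intro x y t h
    tauto
  refine Pool.Agent.QFree.not_two ht
    (C := fun x => (x ∈ U ↔ (⟨deg (W k), hR.ge ⟨k, rfl⟩⟩ : ↥R) ∈ U)) Iff.rfl hfun hinf ?_ ?_ ?_
  · intro a b a' b' h h' hA hB hT
    exact key a b a' b' ⟨fun _ => h'.le, fun _ => h.le⟩
      ⟨fun k => absurd k (not_le_of_gt h), fun k => absurd k (not_le_of_gt h')⟩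
      (cls hA) (cls hB) hT
  · intro a b a' b' h h' hA hB hT
    exact key a b a' b'
      ⟨fun k => absurd k (not_le_of_gt h), fun k => absurd k (not_le_of_gt h')⟩
      ⟨fun _ => h'.le, fun _ => h.le⟩ (cls hA) (cls hB) hT
  · intro a b a' b' h1 h2 h1' h2' hA hB hT
    exact key a b a' b' ⟨fun k => absurd k h1, fun k => absurd k h1'⟩
      ⟨fun k => absurd k h2, fun k => absurd k h2'⟩ (cls hA) (cls hB) hT

end Pool.Agent.Results.MP_dd8208_lc.OneUnaryPredicate
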